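import Pool.Agent.Helper6.OB.Goals

/-!
# Project OB: packet MNE (many good blocks for the new state)
-/

set_option autoImplicit false

namespace Pool.Agent.Helper66.OB

open Pool.Agent.Helper6.CS
open Pool.Agent.Helper6.OB
open Pool.Agent.Helper41.CS (nil_app over_nil len_nil)

set_option synthInstance.maxSize 1000000000

variable {M : Type} [World M]

/-- The instances which are used for the statement `R(m)`. -/
theorem ipRR (a b : M) (H : Wd M → M) (G : M → Wd M × Wd M → Prop)
    (Φ : Wd M → Wd M × Wd M → M) (g : Wd M → M) [IFn M H] [IFn M g]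
    [IP M fun p : M × (Wd M × Wd M) => G p.1 p.2]
    [IFn M fun p : Wd M × (Wd M × Wd M) => Φ p.1 p.2] (L r β : M) :
    IP M fun m : M => RR a b H G Φ g L r β m := by
  unfold RR Suc Ret
  infer_instance

theorem ipRet (a b : M) (H' : Wd M → M) [IFn M H'] (L β : M) :
    IP M fun p : Wd M × Wd M => Ret a b L β H' p.1 p.2 := by
  unfold Ret
  infer_instance

open Classical in
theorem t_MNE : G_MNE := by
  intro hPH hMN0 hMNX hMNS M _ a b ρ H G Φ g h0 hab hSt hΦ hg hgρ hGn hur L r
  have := hSt.ifn
  have := hSt.ip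
  have := hΦ.ifn
  have := hg
  obtain ⟨β, hβ⟩ := hur L
  have hR : ∀ m, RR a b H G Φ g L r β m :=
    ind (ipRR a b H G Φ g L r β) (hMN0 M a b H G Φ g hSt.ifn hg L r β)
      fun m hm => hMNS hMNX M a b ρ H G Φ g h0 hab hSt hΦ hg hgρ hGn L r β m hm
  obtain ⟨B, hB⟩ := hR (nb a β) 0
  refine ⟨β + B, fun χ hχ => ?_⟩
  have hχ' : ColB a (L + β + 0 + B) r χ := by
    rw [add_zero, add_assoc]
    exact hχ
  rcases hB χ hχ' with hS | ⟨e, he1, he2⟩
  · rw [add_zero] at hS
    exact hS
  exfalso
  have hRi := ipRet a b (nH g H) L β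
  -- the returns
  have hT : ∀ i, i ≤ nb a β →
      Ret a b L β (nH g H) (dec (ev e i))
        (pick M fun t => Ret a b L β (nH g H) (dec (ev e i)) t) := by
    intro i hi
    exact pick_spec (hβ _ (he1 i hi).1)
  have hti : IFn M fun i : M => pick M fun t => Ret a b L β (nH g H) (dec (ev e i)) t := by
    have h1 : IP M fun p : M × Wd M => Ret a b L β (nH g H) (dec (ev e p.1)) p.2 :=
      IP.comp2 (P := fun p : Wd M × Wd M => Ret a b L β (nH g H) p.1 p.2) hRi
        (f := fun p : M × Wd M => dec (ev e p.1)) (g := fun p : M × Wd M => p.2)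
        inferInstance inferInstance
    infer_instance
  obtain ⟨i, j, hij, hj, hEq⟩ := hPH M
    (fun i => if i ≤ nb a β then
      (Cod.cd (pick M fun t => Ret a b L β (nH g H) (dec (ev e i)) t) : M) else 0)
    inferInstance (nb a β) (by
      intro i hi
      simp only [if_pos hi]
      exact nb_spec (hT i hi).1 (hT i hi).2.1)
  have hi : i ≤ nb a β := hij.le.trans hj
  simp only [if_pos hi, if_pos hj] at hEq
  have hEq' := Cod.inj hEq
  refine he2 i j hij hj (Wd.nil M) (Over.nil a) (by rw [Wd.len_nil])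
    (pick M fun t => Ret a b L β (nH g H) (dec (ev e i)) t) ⟨?_, ?_⟩
  · rw [Wd.nil_append]
    exact hT i hi
  · rw [Wd.nil_append, hEq']
    exact hT j hj

end Pool.Agent.Helper66.OB
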